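import Mathlib
import Pool.Agent.R879.Cappitt

set_option autoImplicit false

namespace Pool.Agent.Results.MP_ca0bb9_al.DerivedCyclic

/-- `G` is a pro-`p` group: a compact Hausdorff totally disconnected topological group in which
every open normal subgroup has index a power of `p`. -/
structure IsProP (p : ℕ) (G : Type) [Group G] [TopologicalSpace G] : Prop where
  topGroup : IsTopologicalGroup G
  compact : CompactSpace G
  hausdorff : T2Space G
  totDisc : TotallyDisconnectedSpace G
  index : ∀ U : Subgroup G, U.Normal → IsOpen (U : Set G) → ∃ n : ℕ, U.index = p ^ n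

/-- `S̃(G)`: the closure of the subgroup generated by all closed subgroups of `G` that are
not normal. -/
def Stilde (G : Type) [Group G] [TopologicalSpace G] [IsTopologicalGroup G] : Subgroup G :=
  (sSup {L : Subgroup G | IsClosed (L : Set G) ∧ ¬ L.Normal} : Subgroup G).topologicalClosure

/-- `G'`: the closure of the abstract commutator subgroup. -/
def derived (G : Type) [Group G] [TopologicalSpace G] [IsTopologicalGroup G] : Subgroup G :=
  (commutator G).topologicalClosure

/-- For every pro-`p` group `G` with `1 ≠ S̃(G) ≠ G`, the derived subgroup `G'` is isomorphic to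
the cyclic group `C_{p ^ n}` for some `n`. -/
theorem result (p : ℕ) (hp : p.Prime) (G : Type) [Group G] [TopologicalSpace G]
    [IsTopologicalGroup G] (hG : IsProP p G) (_h1 : Stilde G ≠ ⊥) (hS : Stilde G ≠ ⊤) :
    ∃ n : ℕ, Nonempty (derived G ≃* Multiplicative (ZMod (p ^ n))) := by
  have := hG.compact
  have := hG.hausdorff
  have := hG.totDisc
  by_cases hna : ∃ a b : G, a * b ≠ b * a
  · have hHyp : Pool.Agent.R879.Cappitt.Hyp (Stilde G) := by
      refine ⟨hS, fun L hL hLS => ?_⟩
      by_contra hn
      apply hLS
      exact (le_sSup (show L ∈ {L : Subgroup G | IsClosed (L : Set G) ∧ ¬ L.Normal} from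
        ⟨hL, hn⟩)).trans (Subgroup.le_topologicalClosure _)
    obtain ⟨e, he, hce⟩ := Pool.Agent.R879.Cappitt.derived_eq_zpowers hp hG.index hHyp hna
    obtain ⟨k, hk⟩ := Pool.Agent.R879.Cappitt.order_ppow hG.index e he
    have hd : derived G = Subgroup.zpowers e := by
      unfold derived
      rw [hce]
      apply le_antisymm _ (Subgroup.le_topologicalClosure _)
      apply Subgroup.topologicalClosure_minimal _ le_rfl
      exact (Set.Finite.isClosed he.finite_zpowers)
    obtain ⟨n, _, hn⟩ := (Nat.dvd_prime_pow hp).mp (orderOf_dvd_of_pow_eq_one hk)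
    refine ⟨n, ?_⟩
    have hcard : Nat.card (derived G) = p ^ n := by
      rw [hd, Nat.card_zpowers, hn]
    have hcyc : IsCyclic (derived G) := by
      rw [hd]; infer_instance
    rw [← hcard]
    exact ⟨(zmodCyclicMulEquiv hcyc).symm⟩
  · push Not at hna
    have hc : commutator G = ⊥ := by
      rw [eq_bot_iff, commutator_def, Subgroup.commutator_le]
      intro a _ b _
      rw [Subgroup.mem_bot, commutatorElement_eq_one_iff_mul_comm]
      exact hna a b
    have hd : derived G = ⊥ := by
      unfold derived
      rw [hc]
      apply le_antisymm _ (Subgroup.le_topologicalClosure _)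
      apply Subgroup.topologicalClosure_minimal _ le_rfl
      rw [Subgroup.coe_bot]
      exact isClosed_singleton
    refine ⟨0, ?_⟩
    have hcard : Nat.card (derived G) = p ^ 0 := by rw [hd]; simp
    have hcyc : IsCyclic (derived G) := by
      rw [hd]; infer_instance
    rw [← hcard]
    exact ⟨(zmodCyclicMulEquiv hcyc).symm⟩

end Pool.Agent.Results.MP_ca0bb9_al.DerivedCyclic
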